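import Pool.Agent.BER.Stmts

/-!
# Squad BER, row MAR: the main theorem (copy of MAK of BEG)
-/

set_option autoImplicit false

namespace Pool.Agent.BER.H23

open Set Filter Topology MeasureTheory
open scoped InnerProductSpace ENNReal
open Pool.Agent.BE01 Pool.Agent.BEL Pool.Agent.BEF Pool.Agent.BEN Pool.Agent.BEH Pool.Agent.BEG
  Pool.Agent.BER

noncomputable section

theorem mar_fin {d : ℕ} {Ω : Set (En d)} (h : Dom Ω) : IsFiniteMeasure (mu Ω) := by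
  refine ⟨?_⟩
  rw [mu, Measure.restrict_apply_univ]
  exact h.2.1.measure_lt_top

theorem mar (hFst : FstStmt) (hStn : StnStmt) (hTmr : TmrStmt) (hTmn : BEN.TmnStmt)
    (hJst : BEN.JstStmt) (hSol : BEN.SolStmt) (hFne : BEN.FneStmt) (hTxk : BEG.TxkStmt) :
    MarStmt := by
  intro d Ω p C0 X X' _ _ _ _ W W' i K Z ω m φ χ hd hΩ hp hC0 hXok hWok hSbd hR hω hFam hGap
    hCri a ha
  have hfin : IsFiniteMeasure (mu Ω) := mar_fin hΩ
  set V : ℝ := (mu Ω).real univ with hV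
  set V' : ℝ := max 1 V with hV'
  have hV'1 : 1 ≤ V' := le_max_left _ _
  set C1 : ℝ := V' * (2 * (1 + C0)) ^ (d + 1) with hC1
  have hC1pos : 0 < C1 := by positivity
  obtain ⟨ρ, hρ, U1, q1, hA1⟩ := hFst X' (Lp ℝ 2 (mu Ω)) W' p a ω m φ χ hp ha hω hFam hCri
  have hAll : ∀ N : ℕ, 1 ≤ N → ∃ U q : ℝ → ℝ → ℝ → X', Apr W' p a ω ρ χ N U q := by
    intro N hN
    induction N, hN using Nat.le_induction with
    | base => exact ⟨U1, q1, hA1⟩
    | succ N hN ih =>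
      obtain ⟨U, q, h⟩ := ih
      exact hStn X' (Lp ℝ 2 (mu Ω)) W' p N a ω ρ m φ χ U q hp hN hω hFam hGap hCri.ev h
  obtain ⟨A, L, hnm, hCu, hpr⟩ := hJst (En d) (mu Ω) d V X W (by omega) le_rfl hXok
  obtain ⟨K', hK, hKpr⟩ := hSol (En d) (mu Ω) d V C0 X W A L hd le_rfl hC0 hSbd hCu hpr
  obtain ⟨k, t1, b, N1, c, C, w, r, g, hk, hkb, hT⟩ :=
    hTmr X' (Lp ℝ 2 (mu Ω)) W' p d a
      (2 * (2 * p + 1) * C1 * (2 ^ d) ^ (2 * p) * V' ^ (2 * p)) ω ρ χ hp ha (by positivity) hω hρ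
      hCri.nrm hCri.ev hAll
  have hT' := hTxk X X' (Lp ℝ 2 (mu Ω)) W W' i K d p a k t1 b N1 c C w r g hR hT
  have hSlu : Slu W p a := by
    apply hTmn X (Lp ℝ 2 (mu Ω)) (Jt d (mu Ω)) W d p A V' C1 K' L a k t1 b N1 c C _ _ _ hK hKpr
      hd hp ha hC1pos (zero_le_one.trans hV'1) hk _ hT'
    rw [hnm]
    exact hkb
  exact hFne d Ω X W Z p a hΩ hp ha hXok hWok hSlu

end

end Pool.Agent.BER.H23
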